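import Mathlib
set_option autoImplicit false
namespace Pool.Agent.Results.MP_a34ed5_an.Main
open Set Topology Filter UniformSpace

def IsFreeLCS {X V : Type} [TopologicalSpace X] [AddCommGroup V] [Module ℝ V]
    [TopologicalSpace V] (δ : X → V) : Prop :=
  IsTopologicalAddGroup V ∧ ContinuousSMul ℝ V ∧ LocallyConvexSpace ℝ V ∧ T2Space V ∧
    Continuous δ ∧ ∀ (E : Type) [AddCommGroup E] [Module ℝ E] [TopologicalSpace E]
      [IsTopologicalAddGroup E] [ContinuousSMul ℝ E] [LocallyConvexSpace ℝ E] [T2Space E]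
      (f : X → E), Continuous f → ∃! g : V →L[ℝ] E, ∀ x, g (δ x) = f x

def Aux {V : Type} [AddCommGroup V] [Module ℝ V] (_ : Seminorm ℝ V) : Type := V

section
variable {V : Type} [AddCommGroup V] [Module ℝ V] (r : Seminorm ℝ V)
noncomputable instance : SeminormedAddCommGroup (Aux r) :=
  r.toAddGroupSeminorm.toSeminormedAddCommGroup
instance : Module ℝ (Aux r) := inferInstanceAs (Module ℝ V)
noncomputable instance : NormedSpace ℝ (Aux r) := ⟨fun a x => (map_smul_eq_mul r a x).le⟩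
end

def Nuclear (V : Type) [AddCommGroup V] [Module ℝ V] [TopologicalSpace V] : Prop :=
  ∀ r : Seminorm ℝ V, Continuous r → ∃ q : Seminorm ℝ V, Continuous q ∧ r ≤ q ∧
    ∃ (f : ℕ → V →ₗ[ℝ] ℝ) (a : ℕ → ℝ) (y : ℕ → Completion (Aux r)),
      (∀ n, 0 ≤ a n) ∧ (∀ n x, |f n x| ≤ a n * q x) ∧ Summable (fun n => a n * ‖y n‖) ∧
        ∀ x : Aux r, HasSum (fun n => f n x • y n) (x : Completion (Aux r))

def MultiHilbert (V : Type) [AddCommGroup V] [Module ℝ V] [TopologicalSpace V] : Prop :=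
  ∃ (ι : Type) (q : SeminormFamily ℝ V ι), WithSeminorms q ∧
    ∀ i, ∃ b : LinearMap.BilinForm ℝ V, (∀ x y, b x y = b y x) ∧ (∀ x, 0 ≤ b x x) ∧
      ∀ x, q i x = √(b x x)

def IsPPoint (p : Ultrafilter ℕ) : Prop :=
  ∀ f : ℕ → ℕ, (∃ k, {n | f n = k} ∈ p) ∨ ∃ A ∈ p, ∀ k, {n ∈ A | f n = k}.Finite

def IsRapid (p : Ultrafilter ℕ) : Prop :=
  ∀ g : ℕ → ℕ, ∃ A ∈ p, ∀ k, {n ∈ A | n < g k}.ncard ≤ k

def X (p : Ultrafilter ℕ) : Set (Ultrafilter ℕ) := insert p (range pure)

def S (p : Ultrafilter ℕ) : Prop :=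
  ∀ ε : ℕ → ℝ, (∀ n, 0 ≤ ε n) → Tendsto ε p (𝓝 0) → ∃ A ∈ p, Summable (A.indicator ε)

variable {p : Ultrafilter ℕ}

lemma inv_tendsto (f : ℕ → ℕ) (h : ∀ k, {n | f n = k} ∉ p) :
    Tendsto (fun n => 1 / ((f n : ℝ) + 1)) p (𝓝 0) := by
  refine tendsto_one_div_add_atTop_nhds_zero_nat.comp (tendsto_atTop.2 fun k => ?_)
  refine Ultrafilter.compl_notMem_iff.1 fun h' => ?_
  obtain ⟨j, -, hj⟩ := (Ultrafilter.finite_biUnion_mem_iff (s := fun j => {m | f m = j})
    (finite_Iio k)).1 (mem_of_superset h' fun n hn =>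
      mem_biUnion (not_le.1 (show ¬ k ≤ f n from hn)) rfl)
  exact h j hj

lemma S_iff (hp : (p : Filter ℕ) ≤ cofinite) : S p ↔ IsPPoint p ∧ IsRapid p := by
  classical
  refine ⟨fun h => ⟨fun f => or_iff_not_imp_left.2 fun h1 => ?_, fun g => ?_⟩, fun ⟨h1, h2⟩ ε h3 h4 => ?_⟩
  · obtain ⟨A, hA, h2⟩ := h _ (fun n => by positivity) (inv_tendsto f (not_exists.1 h1))
    refine ⟨A, hA, fun k => Finite.subset (h2.tendsto_cofinite_zero.eventually_lt_const
      (Nat.one_div_pos_of_nat (n := k))) fun n hn => ?_⟩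
    simp [indicator_of_mem hn.1, hn.2]
  · have h1 (n : ℕ) : ∃ k, n < g k + k := ⟨n + 1, by omega⟩
    obtain ⟨A, hA, h2⟩ := h _ (fun n => by positivity) (inv_tendsto (fun n => Nat.find (h1 n))
      fun k hk => p.neBot.ne (empty_mem_iff_bot.1 (mem_of_superset (inter_mem hk
        (hp (finite_Iio (g k + k)).compl_mem_cofinite)) fun n hn => hn.2 (hn.1 ▸ Nat.find_spec (h1 n)))))
    obtain ⟨s, hs⟩ := summable_iff_vanishing_norm.1 h2 1 one_pos
    refine ⟨A \ s, diff_mem hA (hp s.finite_toSet.compl_mem_cofinite), fun k => ?_⟩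
    have h3 : {n ∈ A \ s | n < g k}.Finite := (finite_Iio _).subset fun _ h => h.2
    have h4 := (Finset.card_nsmul_le_sum h3.toFinset _ (1 / ((k : ℝ) + 1)) fun n hn => ?_).trans_lt
      ((le_abs_self _).trans_lt (hs h3.toFinset (Finset.disjoint_left.2 fun n hn =>
        (h3.mem_toFinset.1 hn).1.2)))
    · rw [nsmul_eq_mul, mul_one_div, div_lt_one (by positivity)] at h4
      rw [ncard_eq_toFinset_card _ h3]
      exact Nat.lt_succ_iff.1 (by exact_mod_cast h4)
    · rw [h3.mem_toFinset] at hn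
      rw [indicator_of_mem hn.1.1]
      have : Nat.find (h1 n) ≤ k := Nat.find_min' _ (by linarith [hn.2])
      gcongr
  · have h5 (n : ℕ) : ∃ k, (1 / 2 : ℝ) ^ (k + 1) < ε n + (1 / 2) ^ n := by
      obtain ⟨k, hk⟩ := exists_pow_lt_of_lt_one (show 0 < ε n + (1 / 2) ^ n by
        have := h3 n; positivity) one_half_lt_one
      exact ⟨k, lt_of_le_of_lt (pow_le_pow_of_le_one (by norm_num) (by norm_num) k.le_succ) hk⟩
    have h6 := h4.add ((tendsto_pow_atTop_nhds_zero_of_lt_one (by norm_num) one_half_lt_one).mono_left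
      (hp.trans_eq Nat.cofinite_eq_atTop))
    rw [add_zero] at h6
    obtain ⟨A, hA, h7⟩ := (h1 fun n => Nat.find (h5 n)).resolve_left fun ⟨k, hk⟩ => by
      obtain ⟨n, h7, h8⟩ := ((h6.eventually_lt_const (show (0 : ℝ) < (1 / 2) ^ (k + 1) by
        positivity)).and hk).exists
      exact h7.not_gt (h8 ▸ Nat.find_spec (h5 n))
    choose g hg using fun k => ((h7 k).image (· + 1)).bddAbove
    obtain ⟨B, hB, h8⟩ := h2 g
    have h9 := h6.eventually_lt_const one_pos
    refine ⟨_, inter_mem (inter_mem hA hB) h9, summable_of_sum_le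
      (indicator_nonneg fun n _ => h3 n) (c := ∑' k : ℕ, k * (1 / 2 : ℝ) ^ k) fun s => ?_⟩
    rw [Finset.sum_indicator_eq_sum_filter, ← Finset.sum_fiberwise_of_maps_to
      (g := fun n => Nat.find (h5 n)) fun n hn => Finset.mem_image_of_mem _ hn]
    refine (Finset.sum_le_sum fun k _ => ?_).trans ((summable_pow_mul_geometric_of_norm_lt_one 1
      (by norm_num : ‖(1 / 2 : ℝ)‖ < 1)).congr (by simp) |>.sum_le_tsum _ fun _ _ => by positivity)
    refine (Finset.sum_le_card_nsmul _ _ ((1 / 2 : ℝ) ^ k) fun n hn => ?_).trans ?_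
    · simp only [Finset.mem_filter] at hn
      have h10 : (0 : ℝ) < (1 / 2) ^ n := by positivity
      rcases k with _ | k
      · linarith [pow_zero (1 / 2 : ℝ), show ε n + (1 / 2) ^ n < 1 from hn.1.2.2]
      · linarith [not_lt.1 (Nat.find_min (h5 n) (k.lt_succ_self.trans_eq hn.2.symm))]
    · rw [nsmul_eq_mul]
      gcongr
      refine le_trans ?_ (h8 k)
      rw [← ncard_coe_finset]
      refine ncard_le_ncard (fun n hn => ?_) ((finite_Iio _).subset fun _ h => h.2)
      simp only [Finset.coe_filter, Finset.mem_filter, mem_ofPred_eq] at hn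
      exact ⟨hn.1.2.1.2, hg k ⟨n, ⟨hn.1.2.1.1, hn.2⟩, rfl⟩⟩

def pt (p : Ultrafilter ℕ) : ℕ → X p := fun n => n.casesOn ⟨p, Or.inl rfl⟩
  fun n => ⟨pure n, Or.inr ⟨n, rfl⟩⟩

variable {V : Type} [AddCommGroup V] [Module ℝ V] [TopologicalSpace V] {δ : X p → V}

def y (δ : X p → V) : ℕ → V := fun n => n.casesOn (δ (pt p 0)) fun n => δ (pt p (n + 1)) - δ (pt p 0)

lemma pt_surj : (pt p).Surjective := by
  rintro ⟨_, rfl | ⟨n, rfl⟩⟩
  exacts [⟨0, rfl⟩, ⟨n + 1, rfl⟩]

lemma y_tendsto (h : IsFreeLCS δ) {r : V → ℝ} (hr : Continuous r) (h0 : r 0 = 0) :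
    Tendsto (fun n => r (y δ (n + 1))) p (𝓝 0) := by
  have := h.1
  have h1 : Tendsto (fun n => pt p (n + 1)) p (𝓝 (pt p 0)) :=
    tendsto_subtype_rng.2 p.tendsto_pure_self
  have := ((h.2.2.2.2.1.tendsto _).comp h1).sub_const (δ (pt p 0))
  rw [sub_self] at this
  exact (hr.tendsto' 0 0 h0).comp this

lemma lift (hp : p ∉ range pure) (h : IsFreeLCS δ) {E : Type} [NormedAddCommGroup E]
    [NormedSpace ℝ E] (g : ℕ → E) (hg : Tendsto (fun n => g (n + 1)) p (𝓝 0)) :
    ∃ T : V →L[ℝ] E, ∀ n, T (y δ n) = g n := by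
  have hi : (pt p).Injective := by
    rintro (_ | m) (_ | n) h <;> have h := congrArg Subtype.val h
    exacts [rfl, (hp ⟨n, h.symm⟩).elim, (hp ⟨m, h⟩).elim,
      congrArg _ (Ultrafilter.pure_injective h)]
  let G : ℕ → E := fun n => n.casesOn (g 0) fun n => g (n + 1) + g 0
  let e := Equiv.ofBijective _ ⟨hi, pt_surj⟩
  have hG := hg.add_const (g 0)
  rw [zero_add] at hG
  obtain ⟨T, hT, -⟩ := h.2.2.2.2.2 E (G ∘ e.symm) (continuous_iff_continuousAt.2 fun x U hU => by
    obtain ⟨n, rfl⟩ := e.surjective x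
    rw [Function.comp_apply, e.symm_apply_apply] at hU
    refine mem_map.2 <| mem_of_superset (continuous_subtype_val.continuousAt.preimage_mem_nhds
      ((ultrafilter_isOpen_basic {m | G (m + 1) ∈ U ∧ (n = 0 ∨ n = m + 1)}).mem_nhds ?_)) ?_
    · rcases n with _ | n
      · exact mem_of_superset (hG hU) fun m hm => ⟨hm, Or.inl rfl⟩
      · exact ⟨mem_of_mem_nhds hU, Or.inr rfl⟩
    · intro x hx
      obtain ⟨_ | m, rfl⟩ := e.surjective x <;>
        rw [mem_preimage, Function.comp_apply, e.symm_apply_apply]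
      · rcases n with _ | n
        · exact mem_of_mem_nhds hU
        · exact (hp ⟨n, (Ultrafilter.eq_pure_of_finite_mem (finite_singleton n) (mem_of_superset hx
            fun m hm => by simpa [eq_comm] using hm.2)).elim fun _ h => h.1 ▸ h.2.symm⟩).elim
      · exact hx.1)
  have h1 (n) : T (δ (pt p n)) = G n := (hT _).trans (congrArg G (e.symm_apply_apply n))
  exact ⟨T, fun n => by cases n <;> simp [y, h1, G]⟩

lemma span (h : IsFreeLCS δ) (x : V) : x ∈ Submodule.span ℝ (range (y δ)) := by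
  obtain ⟨_, _, _, _, h1, h2⟩ := h
  have h3 (x) : δ x ∈ Submodule.span ℝ (range (y δ)) := by
    obtain ⟨_ | n, rfl⟩ := pt_surj x
    · exact Submodule.subset_span ⟨0, rfl⟩
    · exact (Submodule.sub_mem_iff_left _ (Submodule.subset_span (mem_range_self 0))).1
        (Submodule.subset_span (mem_range_self (n + 1)))
  obtain ⟨T, hT, -⟩ := h2 _ _ (h1.subtype_mk h3)
  have := (h2 V δ h1).unique (y₁ := (Submodule.subtypeL _).comp T) (y₂ := .id ℝ V)
    (fun x => by simp [hT]) fun _ => rfl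
  exact (show (T x).1 = x from DFunLike.congr_fun this x) ▸ (T x).2

lemma core (hp : p ∉ range pure) (hp' : (p : Filter ℕ) ≤ cofinite) (h : IsFreeLCS δ) (hS : S p)
    (r : Seminorm ℝ V) (hr : Continuous r) : ∃ (T : V →L[ℝ] lp (fun _ : ℕ => ℝ) 2) (w : ℕ → ℝ),
      (∀ n, 0 < w n) ∧ Summable (fun n => (w n)⁻¹ * r (y δ n)) ∧
        ∀ x, ∃ s : Finset ℕ, ∀ t, s ⊆ t → ∑ n ∈ t, (T x n / w n) • y δ n = x := by
  classical
  have h1 := y_tendsto h hr.sqrt (by simp)
  obtain ⟨A, hA, h2⟩ := hS _ (fun _ => Real.sqrt_nonneg _) h1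
  let w : ℕ → ℝ := fun n => n.casesOn 1 fun n =>
    if n ∈ A then √(r (y δ (n + 1))) + 1 / ((n : ℝ) + 1) else 2 ^ n * (r (y δ (n + 1)) + 1)
  have hw (n) : 0 < w n := by
    rcases n with _ | n
    · exact one_pos
    · simp only [w]
      split_ifs <;> positivity
  obtain ⟨T, hT⟩ := lift hp h (fun n => lp.single (E := fun _ : ℕ => ℝ) 2 n (w n)) (by
    rw [tendsto_zero_iff_norm_tendsto_zero]
    have := h1.add (tendsto_one_div_add_atTop_nhds_zero_nat.mono_left
      (hp'.trans_eq Nat.cofinite_eq_atTop))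
    rw [add_zero] at this
    refine this.congr' (mem_of_superset hA fun n hn => ?_)
    exact ((lp.norm_single two_pos _ _).trans ((Real.norm_of_nonneg (hw (n + 1)).le).trans
      (if_pos hn))).symm)
  refine ⟨T, w, hw, (summable_nat_add_iff 1).1 (.of_nonneg_of_le (fun n => by
    have := hw (n + 1); positivity) (fun n => ?_) (h2.add summable_geometric_two)), fun x => ?_⟩
  · refine (inv_mul_le_iff₀ (hw (n + 1))).2 ?_
    simp only [w]
    have h3 := apply_nonneg r (y δ (n + 1))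
    split_ifs with h4
    · rw [indicator_of_mem h4]
      refine (Real.mul_self_sqrt h3).symm.trans_le (mul_le_mul ?_ ?_ (by positivity) (by positivity))
        <;> exact le_add_of_nonneg_right (by positivity)
    · rw [indicator_of_notMem h4, zero_add, mul_right_comm, ← mul_pow]
      norm_num
  · induction span h x using Submodule.span_induction with
    | mem x hx =>
      obtain ⟨n, rfl⟩ := hx
      refine ⟨{n}, fun t ht => ?_⟩
      rw [hT, Finset.sum_eq_single_of_mem n (ht (Finset.mem_singleton_self n)) fun m _ hm => by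
        rw [lp.single_apply_ne _ _ _ hm, zero_div, zero_smul], lp.single_apply_self,
        div_self (hw n).ne', one_smul]
    | zero => exact ⟨∅, by simp⟩
    | add a b _ _ h1 h2 =>
      obtain ⟨s, hs⟩ := h1
      obtain ⟨s', hs'⟩ := h2
      refine ⟨s ∪ s', fun t ht => ?_⟩
      rw [Finset.union_subset_iff] at ht
      simp [add_div, add_smul, Finset.sum_add_distrib, hs t ht.1, hs' t ht.2]
    | smul c a _ h1 =>
      obtain ⟨s, hs⟩ := h1
      refine ⟨s, fun t ht => ?_⟩
      conv_rhs => rw [← hs t ht]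
      simp [Finset.smul_sum, smul_smul, mul_div_assoc]

lemma lift1 (hp : p ∉ range pure) (h : IsFreeLCS δ) {ε : ℕ → ℝ} (h1 : Tendsto ε p (𝓝 0)) :
    ∃ T : V →L[ℝ] lp (fun _ : ℕ => ℝ) 1, (∀ n, T (y δ (n + 1)) = lp.single 1 n (ε n)) ∧
      ∀ (v : lp (fun _ : ℕ => ℝ) 1) (s : Finset ℕ), ∑ n ∈ s, |v n| ≤ ‖v‖ := by
  obtain ⟨T, hT⟩ := lift (E := lp (fun _ : ℕ => ℝ) 1) hp h
    (fun n => n.casesOn 0 fun n => lp.single 1 n (ε n)) (tendsto_zero_iff_norm_tendsto_zero.2
      (by simpa [lp.norm_single one_pos] using h1.abs))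
  exact ⟨T, fun n => hT (n + 1), fun v s => by simpa using lp.sum_rpow_le_norm_rpow (by simp) v s⟩

theorem result (p : Ultrafilter ℕ) (hp : p ∉ range pure) {V : Type} [AddCommGroup V] [Module ℝ V]
    [TopologicalSpace V] (δ : X p → V) (h : IsFreeLCS δ) :
    (Nuclear V ↔ IsPPoint p ∧ IsRapid p) ∧ (MultiHilbert V ↔ IsPPoint p ∧ IsRapid p) := by
  classical
  have hp' : (p : Filter ℕ) ≤ cofinite :=
    p.le_cofinite_or_eq_pure.resolve_right fun ⟨n, h⟩ => hp ⟨n, h.symm⟩
  rw [← S_iff hp']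
  obtain ⟨_, _, _, -⟩ := id h
  refine ⟨⟨fun H ε h1 h2 => ?_, fun hS r hr => ?_⟩, fun ⟨ι, q, hq, H⟩ ε h1 h2 => ?_, fun hS => ?_⟩
  · obtain ⟨T, hT, h3⟩ := lift1 hp h h2
    let r := (normSeminorm ℝ _).comp T.toLinearMap
    obtain ⟨q, hq, -, f, a, z, h4, h5, h6, h7⟩ := H r T.continuous.norm
    let T₀ : Aux r →ₗ[ℝ] lp (fun _ : ℕ => ℝ) 1 := T.toLinearMap
    let T' := (T₀.mkContinuous 1 fun x => (one_mul _).ge).fromCompletion
    have h8 (x) : ‖T' x‖ ≤ ‖x‖ := Completion.induction_on x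
      (isClosed_le (by fun_prop) (by fun_prop)) fun x => by
        rw [ContinuousLinearMap.fromCompletion_apply_coe, Completion.norm_coe]; exact le_rfl
    have hA := (y_tendsto h hq (map_zero q)).eventually_lt_const one_pos
    refine ⟨_, hA, summable_of_sum_le (indicator_nonneg fun n _ => h1 n)
      (c := ∑' n, a n * ‖z n‖) fun s => ?_⟩
    rw [Finset.sum_indicator_eq_sum_filter]
    refine hasSum_le (fun k => ?_) (hasSum_sum fun n _ => ?_) h6.hasSum
      (f := fun k => ∑ n ∈ _, f k (y δ (n + 1)) * T' (z k) n)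
    · refine (Finset.sum_le_sum fun n hn => ?_).trans ((Finset.mul_sum _ _ _).symm.trans_le
        (mul_le_mul_of_nonneg_left ((h3 _ _).trans (h8 _)) (h4 k)))
      refine (le_abs_self _).trans ((abs_mul _ _).trans_le (mul_le_mul_of_nonneg_right
        ((h5 _ _).trans (mul_le_of_le_one_right (h4 k) ?_)) (abs_nonneg _)))
      exact le_of_lt (Finset.mem_filter.1 hn).2
    · have := ((lp.evalCLM ℝ (fun _ : ℕ => ℝ) 1 n).comp T').hasSum (h7 (y δ (n + 1)))
      simp only [ContinuousLinearMap.comp_apply, map_smul, smul_eq_mul] at this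
      rw [ContinuousLinearMap.fromCompletion_apply_coe] at this
      exact (show T (y δ (n + 1)) n = ε n by rw [hT, lp.single_apply_self]) ▸ this
  · obtain ⟨T, w, h1, h2, h3⟩ := core hp hp' h hS r hr
    refine ⟨r + (normSeminorm ℝ _).comp T.toLinearMap, hr.add T.continuous.norm,
      fun x => le_add_of_nonneg_right (apply_nonneg _ _), fun n => (w n)⁻¹ •
        ((lp.evalCLM ℝ (fun _ : ℕ => ℝ) 2 n).comp T).toLinearMap, fun n => (w n)⁻¹,
      fun n => ((y δ n : Aux r) : Completion (Aux r)), fun n => (inv_pos.2 (h1 n)).le,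
      fun n x => ?_, h2.congr fun n => congrArg _ (Completion.norm_coe (E := Aux r) _).symm,
      fun x => ?_⟩
    · refine (abs_mul _ _).trans_le (mul_le_mul (abs_of_pos (inv_pos.2 (h1 n))).le ?_ (abs_nonneg _)
        (inv_pos.2 (h1 n)).le)
      exact (lp.norm_apply_le_norm two_ne_zero (T x) n).trans
        (le_add_of_nonneg_left (apply_nonneg r x))
    · obtain ⟨s, hs⟩ := h3 x
      refine tendsto_const_nhds.congr' (mem_of_superset (mem_atTop s) fun t ht => ?_)
      refine (congrArg (Completion.toComplL (𝕜 := ℝ) (E := Aux r)) (hs t ht)).symm.trans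
        ((map_sum _ _ _).trans (Finset.sum_congr rfl fun n _ => (map_smul _ _ _).trans ?_))
      rw [div_eq_inv_mul]
      rfl
  · obtain ⟨T, hT, h3⟩ := lift1 hp h (ε := fun n => √(ε n)) (by simpa using h2.sqrt)
    obtain ⟨s, C, -, hC⟩ := Seminorm.bound_of_continuous hq ((normSeminorm ℝ _).comp T.toLinearMap)
      T.continuous.norm
    choose b b1 b2 b3 using H
    let Q : V → ℝ := fun x => C ^ 2 * ∑ i ∈ s, b i x x
    have h4 (x) : ‖T x‖ ^ 2 ≤ Q x := by
      have h4 := Finset.sum_nonneg fun i (_ : i ∈ s) => b2 i x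
      refine (pow_le_pow_left₀ (norm_nonneg _) ((hC x).trans (mul_le_mul_of_nonneg_left
        (Seminorm.finset_sup_apply_le (Real.sqrt_nonneg (∑ i ∈ s, b i x x)) fun i hi => ?_)
        C.2)) 2).trans_eq (by rw [mul_pow, Real.sq_sqrt h4])
      exact (b3 i x).trans_le (Real.sqrt_le_sqrt (Finset.single_le_sum (fun i _ => b2 i x) hi))
    have h5 : Continuous Q := continuous_const.mul (continuous_finsetSum _ fun i _ =>
      ((hq.continuous_seminorm i).pow 2).congr fun x => by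
        rw [Pi.pow_apply, b3, Real.sq_sqrt (b2 i x)])
    have hA := (y_tendsto h h5 (by simp [Q])).eventually_lt_const one_pos
    have h6 (x z : V) (c : ℝ) : Q (x + c • z) + Q (x + (-c) • z) = 2 * Q x + 2 * c ^ 2 * Q z := by
      simp only [Q, map_add, map_smul, LinearMap.add_apply, LinearMap.smul_apply, smul_eq_mul,
        Finset.mul_sum, ← Finset.sum_add_distrib]
      exact Finset.sum_congr rfl fun _ _ => by ring
    have h7 (F : Finset ℕ) (hF : ∀ n ∈ F, Q (y δ (n + 1)) < 1) :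
        ∃ x, Q x ≤ ∑ n ∈ F, ε n ∧ ∀ n, |T x n| = if n ∈ F then ε n else 0 := by
      induction F using Finset.induction_on with
      | empty => exact ⟨0, by simp [Q], by simp⟩
      | insert m F hm ih =>
        obtain ⟨x, h7, h8⟩ := ih fun n hn => hF n (Finset.mem_insert_of_mem hn)
        have h9 (c : ℝ) (hc : |c| = √(ε m)) (n) :
            |T (x + c • y δ (m + 1)) n| = if n ∈ insert m F then ε n else 0 := by
          have := h8 n
          rw [map_add, map_smul, hT, lp.coeFn_add, lp.coeFn_smul, Pi.add_apply, Pi.smul_apply]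
          by_cases h : n = m
          · subst h
            rw [if_neg hm, abs_eq_zero] at this
            simp [this, abs_mul, hc, abs_of_nonneg, h1 n]
          · simp [lp.single_apply_ne _ _ _ h, this, h]
        have h10 := h6 x (y δ (m + 1)) √(ε m)
        rw [Real.sq_sqrt (h1 m)] at h10
        have h11 := mul_le_mul_of_nonneg_left (hF m (Finset.mem_insert_self _ _)).le (h1 m)
        rw [Finset.sum_insert hm]
        rcases le_total (Q (x + √(ε m) • y δ (m + 1))) (Q (x + (-√(ε m)) • y δ (m + 1))) with h | h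
        · exact ⟨_, by linarith, h9 _ (abs_of_nonneg (Real.sqrt_nonneg _))⟩
        · exact ⟨_, by linarith, h9 _ (by simp [abs_of_nonneg])⟩
    refine ⟨_, hA, summable_of_sum_le (indicator_nonneg fun n _ => h1 n) (c := 1) fun s => ?_⟩
    rw [Finset.sum_indicator_eq_sum_filter]
    refine (fun F (hF : ∀ n ∈ F, Q (y δ (n + 1)) < 1) => (?_ : ∑ n ∈ F, ε n ≤ 1)) _
      fun n hn => (Finset.mem_filter.1 hn).2
    obtain ⟨x, h8, h9⟩ := h7 F hF
    have := (Finset.sum_congr rfl fun n hn => (h9 n).trans (if_pos hn)).ge.trans (h3 (T x) _)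
    nlinarith [h4 x, norm_nonneg (T x)]
  · refine ⟨_, fun T : V →L[ℝ] lp (fun _ : ℕ => ℝ) 2 => (normSeminorm ℝ _).comp T.toLinearMap,
      (SeminormFamily.withSeminorms_iff_nhds_eq_iInf _).2 (le_antisymm (le_iInf fun T =>
        (T.continuous.norm.tendsto' 0 0 (by simp)).le_comap) fun U hU => ?_),
      fun T => ⟨(innerₗ _).compl₁₂ T.toLinearMap T.toLinearMap, fun x y => real_inner_comm (T y) (T x),
        fun x => real_inner_self_nonneg (x := T x), fun x => norm_eq_sqrt_real_inner (T x)⟩⟩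
    obtain ⟨⟨s, ε⟩, h1, h2⟩ := (with_gaugeSeminormFamily (𝕜 := ℝ)).hasBasis_zero_ball.mem_iff.1 hU
    obtain ⟨T, w, h3, h4, h5⟩ := core hp hp' h hS (s.sup (gaugeSeminormFamily ℝ V))
      (Seminorm.continuous_finsetSup fun i _ => with_gaugeSeminormFamily.continuous_seminorm i)
    set r := s.sup (gaugeSeminormFamily ℝ V)
    have h6 : 0 ≤ ∑' n, (w n)⁻¹ * r (y δ n) := tsum_nonneg fun n => by have := h3 n; positivity
    refine mem_iInf_of_mem T ⟨_, Iio_mem_nhds (div_pos h1 (add_pos_of_nonneg_of_pos h6 one_pos)),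
      fun x hx => h2 (r.mem_ball_zero.2 ?_)⟩
    obtain ⟨t, ht⟩ := h5 x
    have h7 := (lt_div_iff₀ (add_pos_of_nonneg_of_pos h6 one_pos)).1 hx
    refine (congrArg r (ht t Subset.rfl)).symm.trans_lt <| ((Finset.le_sum_of_subadditive r
      (map_zero r).le (map_add_le_add r) _ _).trans ((Finset.sum_le_sum fun n _ => ?_).trans
      ((Finset.mul_sum _ _ ‖T x‖).symm.trans_le (mul_le_mul_of_nonneg_left (h4.sum_le_tsum t
        fun n _ => by have := h3 n; positivity) (norm_nonneg _))))).trans_lt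
          (lt_of_le_of_lt (mul_le_mul_of_nonneg_left (by linarith) (norm_nonneg _)) h7)
    rw [map_smul_eq_mul, norm_div, Real.norm_of_nonneg (h3 n).le, div_eq_mul_inv, mul_assoc]
    have := h3 n
    gcongr
    exact lp.norm_apply_le_norm two_ne_zero (T x) n

end Pool.Agent.Results.MP_a34ed5_an.Main
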